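import Mathlib

/-!
# Subgraphs with all degrees divisible by a prime (Alon, Friedland, Kalai)
-/

set_option autoImplicit false

open Finset MvPolynomial

namespace Pool.TH815.GR

variable {V : Type} [Fintype V] [DecidableEq V]

theorem exists_mod (G : SimpleGraph V) [DecidableRel G.Adj] (q : ℕ) [hq : Fact q.Prime]
    (h : (q - 1) * Fintype.card V < G.edgeFinset.card) :
    ∃ F : SimpleGraph V, F ≤ G ∧ (∃ a b, F.Adj a b) ∧
      ∀ v, q ∣ (F.neighborSet v).ncard := by
  classical
  have hq2 : 2 ≤ q := hq.out.two_le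
  let σ := G.edgeSet
  let f : V → MvPolynomial σ (ZMod q) := fun v =>
    ∑ e : σ, if v ∈ e.1 then (X e : MvPolynomial σ (ZMod q)) ^ (q - 1) else 0
  have hdeg : ∀ v, (f v).totalDegree ≤ q - 1 := by
    intro v
    apply totalDegree_finsetSum_le
    intro e _
    split_ifs
    · rw [totalDegree_X_pow]
    · simp
  have hsum : (∑ v ∈ (univ : Finset V), (f v).totalDegree) < Fintype.card σ := by
    calc (∑ v ∈ (univ : Finset V), (f v).totalDegree) ≤ ∑ v ∈ (univ : Finset V), (q - 1) :=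
          sum_le_sum fun v _ => hdeg v
      _ = (q - 1) * Fintype.card V := by rw [sum_const, card_univ, smul_eq_mul, mul_comm]
      _ < G.edgeFinset.card := h
      _ = Fintype.card σ := SimpleGraph.edgeFinset_card
  have hcw : q ∣ Fintype.card {x : σ → ZMod q // ∀ v ∈ (univ : Finset V), eval x (f v) = 0} := by
    convert char_dvd_card_solutions_of_sum_lt q hsum
  have heval : ∀ (x : σ → ZMod q) (v : V), eval x (f v) =
      ((univ.filter fun e : σ => v ∈ e.1 ∧ x e ≠ 0).card : ZMod q) := by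
    intro x v
    simp only [f, map_sum]
    rw [card_filter]
    push_cast
    apply sum_congr rfl
    intro e _
    by_cases hv : v ∈ e.1
    · rw [if_pos hv]
      simp only [map_pow, eval_X, hv, true_and]
      by_cases hx : x e = 0
      · rw [hx, if_neg (by simp), zero_pow (by omega)]
      · rw [if_pos hx, ZMod.pow_card_sub_one_eq_one hx]
    · simp [hv]
  have hzero : ∀ v ∈ (univ : Finset V), eval (0 : σ → ZMod q) (f v) = 0 := by
    intro v _
    rw [heval]
    simp
  have hcard : 1 < Fintype.card {x : σ → ZMod q // ∀ v ∈ (univ : Finset V), eval x (f v) = 0} := by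
    have hpos : 0 < Fintype.card {x : σ → ZMod q // ∀ v ∈ (univ : Finset V), eval x (f v) = 0} :=
      Fintype.card_pos_iff.2 ⟨⟨0, hzero⟩⟩
    have := Nat.le_of_dvd hpos hcw
    omega
  obtain ⟨⟨x, hx⟩, hne⟩ := Fintype.exists_ne_of_one_lt_card hcard ⟨0, hzero⟩
  have hx0 : x ≠ 0 := fun h0 => hne (Subtype.ext h0)
  obtain ⟨e0, he0⟩ := Function.ne_iff.1 hx0
  let S : Set (Sym2 V) := {e | ∃ h : e ∈ G.edgeSet, x ⟨e, h⟩ ≠ 0}
  let F := SimpleGraph.fromEdgeSet S
  have hFS : ∀ a b, F.Adj a b ↔ ∃ h : s(a, b) ∈ G.edgeSet, x ⟨s(a, b), h⟩ ≠ 0 := by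
    intro a b
    simp only [F, SimpleGraph.fromEdgeSet_adj]
    constructor
    · rintro ⟨h, -⟩
      exact h
    · rintro ⟨h, hx⟩
      exact ⟨⟨h, hx⟩, (G.mem_edgeSet.1 h).ne⟩
  refine ⟨F, ?_, ?_, ?_⟩
  · intro a b hab
    exact G.mem_edgeSet.1 ((hFS a b).1 hab).1
  · obtain ⟨e, he⟩ := e0
    induction e using Sym2.ind with
    | _ a b => exact ⟨a, b, (hFS a b).2 ⟨he, he0⟩⟩
  · intro v
    have h1 := hx v (mem_univ v)
    rw [heval, ZMod.natCast_eq_zero_iff] at h1
    convert h1 using 1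
    rw [← Set.ncard_coe_finset]
    -- neighbours of `v` and edges at `v`
    have e1 : (Subtype.val : σ → Sym2 V) ''
        ((univ.filter fun e : σ => v ∈ e.1 ∧ x e ≠ 0 : Finset σ) : Set σ) =
        (fun u => s(v, u)) '' (F.neighborSet v) := by
      ext e
      simp only [Set.mem_image, coe_filter, mem_univ, true_and, Set.mem_ofPred_eq,
        SimpleGraph.mem_neighborSet]
      constructor
      · rintro ⟨⟨e', he'⟩, ⟨hv, hxe⟩, rfl⟩
        obtain ⟨u, rfl⟩ := hv
        exact ⟨u, (hFS v u).2 ⟨he', hxe⟩, rfl⟩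
      · rintro ⟨u, hu, rfl⟩
        obtain ⟨h, hxu⟩ := (hFS v u).1 hu
        exact ⟨⟨s(v, u), h⟩, ⟨Sym2.mem_mk_left v u, hxu⟩, rfl⟩
    rw [← Set.ncard_image_of_injective _ (Subtype.val_injective), e1]
    rw [Set.ncard_image_of_injective]
    intro u u' huu
    exact (Sym2.congr_right).1 huu

end Pool.TH815.GR
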