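import Pool.Agent.H20.G.R_seed8.TH815.GR7
import Pool.Agent.H20.G.R_seed8.TH815.GR9

/-!
# Splitting vertices and removing perfect matchings
-/

set_option autoImplicit false

open Finset

namespace Pool.TH815.GR

open Pool.Agent.H268R2.LB

/-- A relation on a finite type with all rows and columns of size `q ≥ 1` contains a
permutation. -/
theorem exists_perm {A : Type} [Fintype A] [DecidableEq A] (R : A → A → Prop) [DecidableRel R]
    (q : ℕ) (hq : 1 ≤ q) (h1 : ∀ a, (univ.filter fun b => R a b).card = q)
    (h2 : ∀ b, (univ.filter fun a => R a b).card = q) :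
    ∃ σ : A → A, Function.Bijective σ ∧ ∀ a, R a (σ a) := by
  have hall := (Finset.all_card_le_biUnion_card_iff_exists_injective
    (fun a => univ.filter fun b => R a b)).1 (by
    intro s
    have e := sum_card_bipartiteAbove_eq_sum_card_bipartiteBelow (s := s)
      (t := s.biUnion (fun a => univ.filter fun b => R a b)) R
    have e1 : ∀ a ∈ s, ((s.biUnion (fun a => univ.filter fun b => R a b)).bipartiteAbove R a).card
        = q := by
      intro a ha
      rw [← h1 a]
      congr 1
      ext b
      simp only [mem_bipartiteAbove, mem_biUnion, mem_filter, mem_univ, true_and]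
      constructor
      · exact fun h => h.2
      · exact fun h => ⟨⟨a, ha, h⟩, h⟩
    have e2 : ∀ b ∈ s.biUnion (fun a => univ.filter fun b => R a b),
        (s.bipartiteBelow R b).card ≤ q := by
      intro b _
      rw [← h2 b]
      apply card_le_card
      intro a ha
      rw [mem_bipartiteBelow] at ha
      simp [ha.2]
    rw [sum_congr rfl e1, sum_const, smul_eq_mul] at e
    have e3 := sum_le_sum e2
    rw [← e, sum_const, smul_eq_mul] at e3
    exact Nat.le_of_mul_le_mul_right e3 hq)
  obtain ⟨σ, hσ, hR⟩ := hall
  refine ⟨σ, Finite.injective_iff_bijective.1 hσ, fun a => ?_⟩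
  have := hR a
  rw [mem_filter] at this
  exact this.2

/-- Regular subrelations of regular relations. -/
theorem exists_regular_sub {A : Type} [Fintype A] [DecidableEq A] (d : ℕ) : ∀ (t : ℕ)
    (R : A → A → Prop) [DecidableRel R],
    (∀ a, (univ.filter fun b => R a b).card = d + t) →
    (∀ b, (univ.filter fun a => R a b).card = d + t) →
    ∃ (R' : A → A → Prop) (_ : DecidableRel R'), (∀ a b, R' a b → R a b) ∧
      (∀ a, (univ.filter fun b => R' a b).card = d) ∧
      (∀ b, (univ.filter fun a => R' a b).card = d) := by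
  intro t
  induction t with
  | zero => exact fun R _ h1 h2 => ⟨R, inferInstance, fun _ _ h => h, h1, h2⟩
  | succ t ih =>
    intro R _ h1 h2
    obtain ⟨σ, hσ, hR⟩ := exists_perm R (d + (t + 1)) (by omega) h1 h2
    obtain ⟨R', i', h3, h4, h5⟩ := ih (fun a b => R a b ∧ b ≠ σ a) (by
      intro a
      have e : (univ.filter fun b => R a b ∧ b ≠ σ a) = (univ.filter fun b => R a b).erase (σ a) := by
        ext b
        simp only [mem_filter, mem_univ, true_and, mem_erase]
        exact and_comm
      rw [e, card_erase_of_mem (by simp [hR a]), h1 a]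
      omega) (by
      intro b
      obtain ⟨a0, rfl⟩ := hσ.2 b
      have e : (univ.filter fun a => R a (σ a0) ∧ σ a0 ≠ σ a) =
          (univ.filter fun a => R a (σ a0)).erase a0 := by
        ext a
        simp only [mem_filter, mem_univ, true_and, mem_erase]
        constructor
        · rintro ⟨h, hne⟩
          exact ⟨fun h' => hne (by rw [h']), h⟩
        · rintro ⟨hne, h⟩
          exact ⟨h, fun h' => hne (hσ.1 h').symm⟩
      rw [e, card_erase_of_mem (by simp [hR a0]), h2 (σ a0)]
      omega)
    exact ⟨R', i', fun a b h => (h3 a b h).1, h4, h5⟩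

/-- The index of the class of the neighbour `u` at `v`. -/
noncomputable def idx {V : Type} [Fintype V] [DecidableEq V] (F : SimpleGraph V)
    [DecidableRel F.Adj] (v u : V) : ℕ :=
  if h : u ∈ F.neighborFinset v then ((F.neighborFinset v).equivFin ⟨u, h⟩ : ℕ) else 0

theorem idx_lt {V : Type} [Fintype V] [DecidableEq V] (F : SimpleGraph V)
    [DecidableRel F.Adj] {v u : V} (h : F.Adj v u) : idx F v u < F.degree v := by
  have h' : u ∈ F.neighborFinset v := by simpa using h
  rw [idx, dif_pos h']
  exact ((F.neighborFinset v).equivFin ⟨u, h'⟩).2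

theorem idx_inj {V : Type} [Fintype V] [DecidableEq V] (F : SimpleGraph V)
    [DecidableRel F.Adj] {v u u' : V} (h : F.Adj v u) (h' : F.Adj v u')
    (he : idx F v u = idx F v u') : u = u' := by
  have g : u ∈ F.neighborFinset v := by simpa using h
  have g' : u' ∈ F.neighborFinset v := by simpa using h'
  rw [idx, dif_pos g, idx, dif_pos g'] at he
  have := (F.neighborFinset v).equivFin.injective (Fin.ext he)
  exact congrArg Subtype.val this

theorem idx_surj {V : Type} [Fintype V] [DecidableEq V] (F : SimpleGraph V)
    [DecidableRel F.Adj] {v : V} {t : ℕ} (ht : t < F.degree v) :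
    ∃ u, F.Adj v u ∧ idx F v u = t := by
  obtain ⟨⟨u, hu⟩, h⟩ := (F.neighborFinset v).equivFin.surjective ⟨t, ht⟩
  refine ⟨u, by simpa using hu, ?_⟩
  rw [idx, dif_pos hu, h]

/-- The number of neighbours in one class. -/
theorem class_card {V : Type} [Fintype V] [DecidableEq V] (F : SimpleGraph V)
    [DecidableRel F.Adj] (q : ℕ) (hq : 0 < q) (v : V) (hv : q ∣ F.degree v) (i : ℕ)
    (hi : i < F.degree v / q) :
    (univ.filter fun u => F.Adj v u ∧ idx F v u / q = i).card = q := by
  have e : (univ.filter fun u => F.Adj v u ∧ idx F v u / q = i).card =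
      (Ico (i * q) (i * q + q)).card := by
    apply card_bij (fun u _ => idx F v u)
    · intro u hu
      rw [mem_filter] at hu
      rw [mem_Ico, ← hu.2.2]
      have := Nat.div_add_mod (idx F v u) q
      have h2 := Nat.mod_lt (idx F v u) hq
      constructor
      · exact Nat.div_mul_le_self _ _
      · rw [mul_comm] at this
        omega
    · intro u hu u' hu' he
      rw [mem_filter] at hu hu'
      exact idx_inj F hu.2.1 hu'.2.1 he
    · intro t ht
      rw [mem_Ico] at ht
      have hlt : t < F.degree v := by
        have h1 : (i + 1) * q ≤ F.degree v / q * q := Nat.mul_le_mul_right q hi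
        rw [Nat.div_mul_cancel hv] at h1
        have : (i + 1) * q = i * q + q := by ring
        omega
      obtain ⟨u, hu, hut⟩ := idx_surj F hlt
      refine ⟨u, ?_, hut⟩
      rw [mem_filter]
      refine ⟨mem_univ u, hu, ?_⟩
      rw [hut]
      apply Nat.div_eq_of_lt_le
      · exact ht.1
      · have : (i + 1) * q = i * q + q := by ring
        omega
  rw [e, Nat.card_Ico]
  omega

/-- **Splitting.** From a graph without cycles of length at most `2 k` with all degrees divisible by
`q` one gets, by splitting vertices, a `q`-regular symmetric relation on `(∑ degrees) / q` elements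
which has a nonbacktracking projection. -/
theorem split {V : Type} [Fintype V] [DecidableEq V] (F : SimpleGraph V) [DecidableRel F.Adj]
    (q : ℕ) (hq : 0 < q) (hv : ∀ v, q ∣ F.degree v) :
    ∃ (W : Type) (_ : Fintype W) (_ : DecidableEq W) (E : W → W → Prop) (_ : DecidableRel E)
      (π : W → V), Fintype.card W * q = ∑ v, F.degree v ∧
      (∀ a b, E a b → E b a) ∧ (∀ a, (univ.filter fun b => E a b).card = q) ∧
      (∀ a b, E a b → F.Adj (π a) (π b)) ∧
      (∀ a b b', E a b → E a b' → b ≠ b' → π b ≠ π b') := by
  refine ⟨Σ v : V, Fin (F.degree v / q), inferInstance, inferInstance,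
    fun a b => F.Adj a.1 b.1 ∧ idx F a.1 b.1 / q = a.2 ∧ idx F b.1 a.1 / q = b.2,
    inferInstance, Sigma.fst, ?_, ?_, ?_, ?_, ?_⟩
  · rw [Fintype.card_sigma, sum_mul]
    apply sum_congr rfl
    intro v _
    rw [Fintype.card_fin, Nat.div_mul_cancel (hv v)]
  · rintro a b ⟨h1, h2, h3⟩
    exact ⟨h1.symm, h3, h2⟩
  · rintro ⟨v, i⟩
    refine Eq.trans ?_ (class_card F q hq v (hv v) i i.2)
    apply card_bij (fun b _ => b.1)
    · rintro b hb
      rw [mem_filter] at hb ⊢
      exact ⟨mem_univ _, hb.2.1, hb.2.2.1⟩
    · rintro ⟨u, j⟩ hb ⟨u', j'⟩ hb' he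
      rw [mem_filter] at hb hb'
      simp only at he
      subst he
      have : (j : ℕ) = j' := hb.2.2.2.symm.trans hb'.2.2.2
      rw [Fin.ext this]
    · intro u hu
      rw [mem_filter] at hu
      have hlt : idx F u v / q < F.degree u / q := by
        have h1 := idx_lt F hu.2.1.symm
        obtain ⟨s, hs⟩ := hv u
        rw [hs, Nat.mul_div_cancel_left _ hq]
        rw [hs] at h1
        exact Nat.div_lt_of_lt_mul h1
      exact ⟨⟨u, ⟨_, hlt⟩⟩, by
        rw [mem_filter]
        exact ⟨mem_univ _, hu.2.1, hu.2.2, rfl⟩, rfl⟩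
  · exact fun a b h => h.1
  · rintro a ⟨u, j⟩ ⟨u', j'⟩ h h' hne he
    apply hne
    simp only at he
    subst he
    have : (j : ℕ) = j' := h.2.2.symm.trans h'.2.2
    rw [Fin.ext this]

end Pool.TH815.GR
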