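import Pool.Agent.H20.G.R_seed8.TH815.GR2
import Pool.Agent.H20.G.R_seed8.TH815.GR3

/-!
# Approximate rank of dense graphs of girth greater than `2 k`
-/

set_option autoImplicit false

open Finset

namespace Pool.TH815.GR

open Pool.Agent.H268R2.LB

variable {V : Type*} [Fintype V] [DecidableEq V]

omit [Fintype V] [DecidableEq V] in
theorem c4_free (G : SimpleGraph V) {k : ℕ} (hk : 2 ≤ k)
    (hg : ∀ (v : V) (p : G.Walk v v), p.IsCycle → 2 * k < p.length) {x x' y y' : V} (hx : x ≠ x')
    (h1 : G.Adj x y) (h2 : G.Adj x' y) (h3 : G.Adj x y') (h4 : G.Adj x' y') : y = y' := by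
  by_contra hne
  have w1 := NW.one h1
  have w2 := NW.step w1 h2.symm hx
  have w3 := NW.step w2 h4 hne
  have w4 := NW.step w3 h3.symm hx.symm
  exact no_closed hg w4 (by omega)

/-- The restricted adjacency matrix. -/
noncomputable def AL (G : SimpleGraph V) [DecidableRel G.Adj] (L : Finset V) : Matrix V V ℝ :=
  Matrix.of fun i j => if i ∈ L ∧ j ∈ L then G.adjMatrix ℝ i j else 0

theorem AL_nonneg (G : SimpleGraph V) [DecidableRel G.Adj] (L : Finset V) (i j : V) :
    0 ≤ AL G L i j := by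
  simp only [AL, Matrix.of_apply, SimpleGraph.adjMatrix_apply]
  split_ifs <;> norm_num

theorem AL_le (G : SimpleGraph V) [DecidableRel G.Adj] (L : Finset V) (i j : V) :
    AL G L i j ≤ G.adjMatrix ℝ i j := by
  simp only [AL, Matrix.of_apply, SimpleGraph.adjMatrix_apply]
  split_ifs <;> norm_num

theorem AL_row (G : SimpleGraph V) [DecidableRel G.Adj] (L : Finset V) (D : ℝ) (hD0 : 0 ≤ D)
    (hD : ∀ x ∈ L, (G.degree x : ℝ) ≤ D) (i : V) : ∑ j, AL G L i j ≤ D := by
  by_cases hi : i ∈ L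
  · calc ∑ j, AL G L i j ≤ ∑ j, G.adjMatrix ℝ i j := sum_le_sum fun j _ => AL_le G L i j
      _ = G.degree i := by
        simp [SimpleGraph.adjMatrix_apply, ← G.card_neighborFinset_eq_degree,
          SimpleGraph.neighborFinset_eq_filter]
      _ ≤ D := hD i hi
  · calc ∑ j, AL G L i j = 0 := sum_eq_zero fun j _ => by simp [AL, hi]
      _ ≤ D := hD0

theorem AL_symm (G : SimpleGraph V) [DecidableRel G.Adj] (L : Finset V) (i j : V) :
    AL G L i j = AL G L j i := by
  have e : G.adjMatrix ℝ i j = G.adjMatrix ℝ j i := by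
    simp only [SimpleGraph.adjMatrix_apply, G.adj_comm i j]
  simp only [AL, Matrix.of_apply, e]
  by_cases hi : i ∈ L <;> by_cases hj : j ∈ L <;> simp [hi, hj]

theorem walks_bound (G : SimpleGraph V) [DecidableRel G.Adj] {k : ℕ} (hk : 2 ≤ k)
    (hg : ∀ (v : V) (p : G.Walk v v), p.IsCycle → 2 * k < p.length) (L : Finset V) (D : ℝ)
    (hD0 : 0 ≤ D) (hD : ∀ x ∈ L, (G.degree x : ℝ) ≤ D) :
    ∑ x, ∑ x', (∑ y, AL G L x y * AL G L x' y) ^ 2 ≤ 2 * D * ∑ x, ∑ y, AL G L x y := by
  have hc0 : ∀ x x', 0 ≤ ∑ y, AL G L x y * AL G L x' y := fun x x' =>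
    sum_nonneg fun y _ => mul_nonneg (AL_nonneg _ _ _ _) (AL_nonneg _ _ _ _)
  have hc1 : ∀ x x', x ≠ x' → ∑ y, AL G L x y * AL G L x' y ≤ 1 := by
    intro x x' hne
    calc ∑ y, AL G L x y * AL G L x' y
        ≤ ∑ y, (if G.Adj x y ∧ G.Adj x' y then (1 : ℝ) else 0) := by
          apply sum_le_sum
          intro y _
          have h1 := AL_le G L x y
          have h2 := AL_le G L x' y
          rw [SimpleGraph.adjMatrix_apply] at h1 h2
          have h3 := AL_nonneg G L x y
          have h4 := AL_nonneg G L x' y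
          by_cases hx : G.Adj x y <;> by_cases hx' : G.Adj x' y <;>
            simp only [hx, hx', if_true, if_false, and_self, and_true, and_false] at h1 h2 ⊢ <;>
            nlinarith
      _ = ((univ.filter fun y => G.Adj x y ∧ G.Adj x' y).card : ℝ) := by
          rw [card_filter]
          push_cast
          rfl
      _ ≤ 1 := by
          have : (univ.filter fun y => G.Adj x y ∧ G.Adj x' y).card ≤ 1 := by
            rw [card_le_one]
            intro y hy y' hy'
            rw [mem_filter] at hy hy'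
            exact c4_free G hk hg hne hy.2.1 hy.2.2 hy'.2.1 hy'.2.2
          exact_mod_cast this
  have hdiag : ∀ x, ∑ y, AL G L x y * AL G L x y ≤ ∑ y, AL G L x y := by
    intro x
    apply sum_le_sum
    intro y _
    have h1 := AL_le G L x y
    rw [SimpleGraph.adjMatrix_apply] at h1
    have h3 := AL_nonneg G L x y
    have h5 : AL G L x y ≤ 1 := by
      refine h1.trans ?_
      split_ifs <;> norm_num
    nlinarith
  have hx : ∀ x, ∑ x', (∑ y, AL G L x y * AL G L x' y) ^ 2 ≤ 2 * D * ∑ y, AL G L x y := by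
    intro x
    have hrow := AL_row G L D hD0 hD x
    have hrow0 : 0 ≤ ∑ y, AL G L x y := sum_nonneg fun y _ => AL_nonneg _ _ _ _
    have e1 : ∀ x', (∑ y, AL G L x y * AL G L x' y) ^ 2 ≤
        (if x = x' then D * ∑ y, AL G L x y else 0) + ∑ y, AL G L x y * AL G L x' y := by
      intro x'
      by_cases hxx : x = x'
      · subst hxx
        rw [if_pos rfl]
        have h1 := hdiag x
        have h2 := hc0 x x
        nlinarith
      · rw [if_neg hxx, zero_add]
        have h1 := hc1 x x' hxx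
        have h2 := hc0 x x'
        nlinarith
    calc ∑ x', (∑ y, AL G L x y * AL G L x' y) ^ 2
        ≤ ∑ x', ((if x = x' then D * ∑ y, AL G L x y else 0) +
            ∑ y, AL G L x y * AL G L x' y) := sum_le_sum fun x' _ => e1 x'
      _ = D * ∑ y, AL G L x y + ∑ x', ∑ y, AL G L x y * AL G L x' y := by
          rw [sum_add_distrib]
          simp
      _ = D * ∑ y, AL G L x y + ∑ y, AL G L x y * ∑ x', AL G L y x' := by
          rw [sum_comm]
          congr 1
          apply sum_congr rfl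
          intro y _
          rw [mul_sum]
          apply sum_congr rfl
          intro x' _
          rw [AL_symm G L x' y]
      _ ≤ D * ∑ y, AL G L x y + ∑ y, AL G L x y * D := by
          gcongr with y _
          · exact AL_nonneg _ _ _ _
          · exact AL_row G L D hD0 hD y
      _ = _ := by rw [← sum_mul]; ring
  calc ∑ x, ∑ x', (∑ y, AL G L x y * AL G L x' y) ^ 2
      ≤ ∑ x, 2 * D * ∑ y, AL G L x y := sum_le_sum fun x _ => hx x
    _ = _ := by rw [← mul_sum]

theorem sum_adj (G : SimpleGraph V) [DecidableRel G.Adj] (i : V) :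
    ∑ j, G.adjMatrix ℝ i j = G.degree i := by
  simp [SimpleGraph.adjMatrix_apply, ← G.card_neighborFinset_eq_degree,
    SimpleGraph.neighborFinset_eq_filter]

/-- The mass of the restricted matrix. -/
theorem AL_mass (G : SimpleGraph V) [DecidableRel G.Adj] (H : Finset V) :
    ∑ i, ∑ j, G.adjMatrix ℝ i j ≤
      ∑ i, ∑ j, AL G Hᶜ i j + 2 * ∑ i ∈ H, (G.degree i : ℝ) := by
  have h1 : ∀ i j, G.adjMatrix ℝ i j ≤ AL G Hᶜ i j + (if i ∈ H then G.adjMatrix ℝ i j else 0) +
      (if j ∈ H then G.adjMatrix ℝ i j else 0) := by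
    intro i j
    have h0 : 0 ≤ G.adjMatrix ℝ i j := by
      rw [SimpleGraph.adjMatrix_apply]; split_ifs <;> norm_num
    by_cases hi : i ∈ H <;> by_cases hj : j ∈ H <;>
      simp only [AL, Matrix.of_apply, mem_compl, hi, hj, if_true, if_false, not_true, not_false_iff,
        and_self, and_true, and_false, false_and, true_and] <;> linarith
  calc ∑ i, ∑ j, G.adjMatrix ℝ i j
      ≤ ∑ i, ∑ j, (AL G Hᶜ i j + (if i ∈ H then G.adjMatrix ℝ i j else 0) +
      (if j ∈ H then G.adjMatrix ℝ i j else 0)) :=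
        sum_le_sum fun i _ => sum_le_sum fun j _ => h1 i j
    _ = ∑ i, ∑ j, AL G Hᶜ i j + ∑ i, ∑ j, (if i ∈ H then G.adjMatrix ℝ i j else 0) +
        ∑ i, ∑ j, (if j ∈ H then G.adjMatrix ℝ i j else 0) := by
        simp only [sum_add_distrib]
    _ = ∑ i, ∑ j, AL G Hᶜ i j + ∑ i ∈ H, (G.degree i : ℝ) + ∑ i ∈ H, (G.degree i : ℝ) := by
        have e1 : ∑ i, ∑ j, (if i ∈ H then G.adjMatrix ℝ i j else 0) =
            ∑ i ∈ H, (G.degree i : ℝ) := by
          have : ∀ i, ∑ j, (if i ∈ H then G.adjMatrix ℝ i j else 0) =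
              if i ∈ H then (G.degree i : ℝ) else 0 := by
            intro i
            by_cases hi : i ∈ H
            · simp only [hi, if_true, sum_adj]
            · simp only [hi, if_false, sum_const_zero]
          simp only [this]
          rw [← sum_filter]
          congr 1
          ext i; simp
        have e2 : ∑ i, ∑ j, (if j ∈ H then G.adjMatrix ℝ i j else 0) =
            ∑ i ∈ H, (G.degree i : ℝ) := by
          rw [sum_comm, ← e1]
          apply sum_congr rfl
          intro i _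
          apply sum_congr rfl
          intro j _
          by_cases hi : i ∈ H
          · simp only [hi, if_true, SimpleGraph.adjMatrix_apply, G.adj_comm]
          · simp only [hi, if_false]
        rw [e1, e2]
    _ = _ := by ring

theorem main (G : SimpleGraph V) [DecidableRel G.Adj] {k : ℕ} (hk : 2 ≤ k)
    (hg : ∀ (v : V) (p : G.Walk v v), p.IsCycle → 2 * k < p.length) (c ε : ℝ) (hc : 0 < c)
    (hε : 0 < ε) (hn : 32 / (ε * c) ≤ (Fintype.card V : ℝ) ^ (1 / (k : ℝ)))
    (he : c * (Fintype.card V : ℝ) ^ (1 + 1 / (k : ℝ)) ≤ (G.edgeFinset.card : ℝ))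
    (B : Matrix V V ℝ)
    (hB : ∑ i, ∑ j, (G.adjMatrix ℝ i j - B i j) ^ 2 ≤
      (1 - ε) * ∑ i, ∑ j, G.adjMatrix ℝ i j ^ 2) :
    ε ^ 3 * c ^ 2 / 1024 * Fintype.card V ≤ B.rank := by
  set n : ℝ := (Fintype.card V : ℝ) with hndef
  set N : ℝ := n ^ (1 / (k : ℝ)) with hN
  have hn0 : 0 ≤ n := Nat.cast_nonneg _
  have hNpos : 0 < N := lt_of_lt_of_le (by positivity) hn
  have hnpos : 0 < n := by
    rcases hn0.eq_or_lt with h | h
    · rw [hN, ← h, Real.zero_rpow (by positivity)] at hNpos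
      exact absurd hNpos (lt_irrefl _)
    · exact h
  have hrp : n ^ (1 + 1 / (k : ℝ)) = n * N := by
    rw [Real.rpow_add hnpos, Real.rpow_one]
  rw [hrp] at he
  set K : ℝ := 256 / (ε * c) with hK
  have hKpos : 0 < K := by positivity
  set H := univ.filter (fun x => K * N < (G.degree x : ℝ)) with hHdef
  have htail := tail G (by omega) hg K hKpos
  rw [← hndef, ← hN, hrp, ← hHdef] at htail
  set f : ℝ := ∑ x ∈ H, (G.degree x : ℝ) with hf
  -- the total mass
  set m : ℝ := ∑ i, ∑ j, G.adjMatrix ℝ i j with hm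
  have hm1 : m = 2 * G.edgeFinset.card := by
    rw [hm]
    simp only [sum_adj]
    rw [← Nat.cast_sum, G.sum_degrees_eq_twice_card_edges]
    push_cast
    rfl
  have hsqA : ∑ i, ∑ j, G.adjMatrix ℝ i j ^ 2 = m := by
    rw [hm]
    apply sum_congr rfl
    intro i _
    apply sum_congr rfl
    intro j _
    rw [SimpleGraph.adjMatrix_apply]
    split_ifs <;> norm_num
  have hm2 : 2 * (c * (n * N)) ≤ m := by rw [hm1]; linarith
  have hf2 : 2 * f ≤ ε / 2 * m := by
    have e1 : 64 / K = ε * c / 4 := by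
      rw [hK]; field_simp; norm_num
    rw [e1] at htail
    have e2 : 32 * n ≤ ε * c * (n * N) := by
      rw [div_le_iff₀ (by positivity)] at hn
      nlinarith [mul_le_mul_of_nonneg_left hn hnpos.le]
    have e3 : ε * (2 * (c * (n * N))) ≤ ε * m := mul_le_mul_of_nonneg_left hm2 hε.le
    nlinarith
  have hmass := AL_mass G H
  rw [← hm, ← hf] at hmass
  have hsqL : ∑ i, ∑ j, AL G Hᶜ i j ^ 2 = ∑ i, ∑ j, AL G Hᶜ i j := by
    apply sum_congr rfl
    intro i _
    apply sum_congr rfl
    intro j _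
    simp only [AL, Matrix.of_apply, SimpleGraph.adjMatrix_apply]
    split_ifs <;> norm_num
  have hLm : ∑ i, ∑ j, AL G Hᶜ i j ≤ m := by
    rw [hm]
    exact sum_le_sum fun i _ => sum_le_sum fun j _ => AL_le G _ i j
  set BL : Matrix V V ℝ := Matrix.of fun i j => if i ∈ Hᶜ ∧ j ∈ Hᶜ then B i j else 0 with hBL
  have hdiff : ∑ i, ∑ j, (AL G Hᶜ i j - BL i j) ^ 2 ≤
      ∑ i, ∑ j, (G.adjMatrix ℝ i j - B i j) ^ 2 := by
    apply sum_le_sum
    intro i _
    apply sum_le_sum
    intro j _
    by_cases h : i ∈ Hᶜ ∧ j ∈ Hᶜ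
    · simp only [AL, hBL, Matrix.of_apply, h, and_self, if_true]
      exact le_rfl
    · simp only [AL, hBL, Matrix.of_apply, h, if_false]
      simp only [sub_zero, ne_eq, OfNat.ofNat_ne_zero, not_false_eq_true, zero_pow]
      exact sq_nonneg _
  have hmpos : 0 < m := lt_of_lt_of_le (by positivity) hm2
  have hrk := approx_rank (AL G Hᶜ) BL (ε / 2 * m) (by positivity) (by
    rw [hsqL]
    rw [hsqA] at hB
    nlinarith)
  have hrk2 : (BL.rank : ℝ) ≤ B.rank := by
    exact_mod_cast rank_restrict_le B Hᶜ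
  have hwalk := walks_bound G hk hg Hᶜ (K * N) (by positivity) (by
    intro x hx
    rw [mem_compl, hHdef, mem_filter] at hx
    push Not at hx
    exact hx (mem_univ x))
  have hw0 : 0 ≤ ∑ x, ∑ x', (∑ y, AL G Hᶜ x y * AL G Hᶜ x' y) ^ 2 :=
    sum_nonneg fun x _ => sum_nonneg fun x' _ => sq_nonneg _
  have h1 : (ε / 2 * m) ^ 2 ≤ B.rank * (2 * (K * N) * m) := by
    calc (ε / 2 * m) ^ 2 ≤ BL.rank * ∑ x, ∑ x', (∑ y, AL G Hᶜ x y * AL G Hᶜ x' y) ^ 2 := hrk
      _ ≤ B.rank * ∑ x, ∑ x', (∑ y, AL G Hᶜ x y * AL G Hᶜ x' y) ^ 2 :=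
          mul_le_mul_of_nonneg_right hrk2 hw0
      _ ≤ B.rank * (2 * (K * N) * m) := by
          apply mul_le_mul_of_nonneg_left _ (Nat.cast_nonneg _)
          refine hwalk.trans ?_
          exact mul_le_mul_of_nonneg_left hLm (by positivity)
  have h2 : ε ^ 2 * m ≤ B.rank * (8 * (K * N)) := by
    have : m * (ε ^ 2 * m) ≤ m * (B.rank * (8 * (K * N))) := by nlinarith
    exact le_of_mul_le_mul_left this hmpos
  have h3 : ε ^ 2 * (2 * (c * (n * N))) ≤ B.rank * (8 * (K * N)) :=
    (mul_le_mul_of_nonneg_left hm2 (by positivity)).trans h2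
  have h4 : ε ^ 2 * c * n ≤ B.rank * (4 * K) := by
    have : N * (ε ^ 2 * c * n) ≤ N * (B.rank * (4 * K)) := by nlinarith
    exact le_of_mul_le_mul_left this hNpos
  have h5 : B.rank * (4 * K) = B.rank * 1024 / (ε * c) := by
    rw [hK]; ring
  rw [h5, le_div_iff₀ (by positivity)] at h4
  nlinarith

end Pool.TH815.GR
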