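import Pool.Agent.H20.G.R_seed8.TH815.GR4

/-!
# Large almost regular subgraphs
-/

set_option autoImplicit false

open Finset

namespace Pool.TH815.GR

open Pool.Agent.H268R2.LB

variable {V : Type*} [Fintype V] [DecidableEq V]

omit [Fintype V] in
/-- A subset of large inner degrees which keeps the mass. -/
theorem core (A : V → V → ℝ) (hs : ∀ x y, A x y = A y x) (h0 : ∀ x, A x x = 0) (a : ℝ)
    (U : Finset V) : ∃ U' ⊆ U, (∑ x ∈ U, ∑ y ∈ U, A x y - a * U.card ≤
        ∑ x ∈ U', ∑ y ∈ U', A x y - a * U'.card) ∧ ∀ x ∈ U', a / 2 ≤ ∑ y ∈ U', A x y := by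
  induction hn : U.card using Nat.strong_induction_on generalizing U with
  | _ n ih =>
    subst hn
    by_cases h : ∀ x ∈ U, a / 2 ≤ ∑ y ∈ U, A x y
    · exact ⟨U, subset_rfl, le_rfl, h⟩
    · push Not at h
      obtain ⟨x, hx, hlt⟩ := h
      have hpos : 0 < U.card := card_pos.2 ⟨x, hx⟩
      have hc : (U.erase x).card + 1 = U.card := card_erase_add_one hx
      obtain ⟨U', hU', h1, h2⟩ := ih (U.erase x).card (by omega) (U.erase x) rfl
      refine ⟨U', hU'.trans (erase_subset _ _), le_trans ?_ h1, h2⟩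
      have e1 : ∑ z ∈ U, ∑ y ∈ U, A z y = ∑ z ∈ U.erase x, ∑ y ∈ U.erase x, A z y +
          2 * ∑ y ∈ U, A x y := by
        rw [← add_sum_erase U _ hx]
        have e2 : ∑ z ∈ U.erase x, ∑ y ∈ U, A z y =
            ∑ z ∈ U.erase x, ∑ y ∈ U.erase x, A z y + ∑ z ∈ U.erase x, A z x := by
          rw [← sum_add_distrib]
          apply sum_congr rfl
          intro z _
          rw [← add_sum_erase U _ hx, add_comm]
        have e3 : ∑ z ∈ U.erase x, A z x = ∑ y ∈ U, A x y := by
          rw [← add_sum_erase U _ hx, h0 x, zero_add]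
          exact sum_congr rfl fun z _ => hs z x
        rw [e2, e3]
        ring
      have e4 : ((U.erase x).card : ℝ) + 1 = U.card := by exact_mod_cast hc
      rw [e1, ← e4]
      linarith

theorem almost_regular (G : SimpleGraph V) [DecidableRel G.Adj] {k : ℕ} (hk : 1 ≤ k)
    (hg : ∀ (v : V) (p : G.Walk v v), p.IsCycle → 2 * k < p.length) (c : ℝ) (hc : 0 < c)
    (hn : 32 / c ≤ (Fintype.card V : ℝ) ^ (1 / (k : ℝ)))
    (he : c * (Fintype.card V : ℝ) ^ (1 + 1 / (k : ℝ)) ≤ (G.edgeFinset.card : ℝ)) :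
    ∃ U : Finset V, c ^ 2 / 512 * Fintype.card V ≤ U.card ∧ ∀ x ∈ U,
      c / 4 * (Fintype.card V : ℝ) ^ (1 / (k : ℝ)) ≤ ((U.filter fun y => G.Adj x y).card : ℝ) ∧
      (G.degree x : ℝ) ≤ 256 / c * (Fintype.card V : ℝ) ^ (1 / (k : ℝ)) := by
  set n : ℝ := (Fintype.card V : ℝ) with hndef
  set N : ℝ := n ^ (1 / (k : ℝ)) with hN
  have hn0 : 0 ≤ n := Nat.cast_nonneg _
  have hNpos : 0 < N := lt_of_lt_of_le (by positivity) hn
  have hnpos : 0 < n := by
    rcases hn0.eq_or_lt with h | h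
    · rw [hN, ← h, Real.zero_rpow (by positivity)] at hNpos
      exact absurd hNpos (lt_irrefl _)
    · exact h
  have hrp : n ^ (1 + 1 / (k : ℝ)) = n * N := by
    rw [Real.rpow_add hnpos, Real.rpow_one]
  rw [hrp] at he
  set K : ℝ := 256 / c with hK
  have hKpos : 0 < K := by positivity
  set H := univ.filter (fun x => K * N < (G.degree x : ℝ)) with hHdef
  have htail := tail G hk hg K hKpos
  rw [← hndef, ← hN, hrp, ← hHdef] at htail
  set f : ℝ := ∑ x ∈ H, (G.degree x : ℝ) with hf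
  set m : ℝ := ∑ i, ∑ j, G.adjMatrix ℝ i j with hm
  have hm1 : m = 2 * G.edgeFinset.card := by
    rw [hm]
    simp only [sum_adj]
    rw [← Nat.cast_sum, G.sum_degrees_eq_twice_card_edges]
    push_cast
    rfl
  have hm2 : 2 * (c * (n * N)) ≤ m := by rw [hm1]; linarith
  have hf2 : 2 * f ≤ m / 2 := by
    have e1 : 64 / K = c / 4 := by
      rw [hK]; field_simp; norm_num
    rw [e1] at htail
    have e2 : 32 * n ≤ c * (n * N) := by
      rw [div_le_iff₀ (by positivity)] at hn
      nlinarith [mul_le_mul_of_nonneg_left hn hnpos.le]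
    nlinarith
  have hmass := AL_mass G H
  rw [← hm, ← hf] at hmass
  have hres : ∑ x ∈ Hᶜ, ∑ y ∈ Hᶜ, G.adjMatrix ℝ x y = ∑ i, ∑ j, AL G Hᶜ i j := by
    have e1 : ∀ i, ∑ j, AL G Hᶜ i j = if i ∈ Hᶜ then ∑ y ∈ Hᶜ, G.adjMatrix ℝ i y else 0 := by
      intro i
      by_cases hi : i ∈ Hᶜ
      · simp only [AL, Matrix.of_apply, hi, true_and, if_true]
        rw [← sum_filter]
        congr 1
        ext j; simp
      · simp only [AL, Matrix.of_apply, hi, false_and, if_false, sum_const_zero]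
    simp only [e1]
    rw [← sum_filter]
    congr 1
    ext j; simp
  obtain ⟨U, hU, hw, hdeg⟩ := core (fun x y => G.adjMatrix ℝ x y)
    (fun x y => by simp only [SimpleGraph.adjMatrix_apply, G.adj_comm x y])
    (fun x => by simp [SimpleGraph.adjMatrix_apply]) (c * N / 2) Hᶜ
  have hUdeg : ∀ x ∈ U, (G.degree x : ℝ) ≤ K * N := by
    intro x hx
    have := hU hx
    rw [mem_compl, hHdef, mem_filter] at this
    push Not at this
    exact this (mem_univ x)
  have hrow : ∀ x, ∑ y ∈ U, G.adjMatrix ℝ x y = ((U.filter fun y => G.Adj x y).card : ℝ) := by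
    intro x
    simp only [SimpleGraph.adjMatrix_apply]
    rw [card_filter]
    push_cast
    rfl
  have hrow2 : ∀ x ∈ U, ∑ y ∈ U, G.adjMatrix ℝ x y ≤ K * N := by
    intro x hx
    refine le_trans ?_ (hUdeg x hx)
    rw [hrow, ← G.card_neighborFinset_eq_degree]
    apply Nat.cast_le.2
    apply card_le_card
    intro y hy
    rw [mem_filter] at hy
    simpa using hy.2
  have hcard : ((Hᶜ).card : ℝ) ≤ n := by
    have : (Hᶜ).card ≤ Fintype.card V := card_le_univ _
    exact Nat.cast_le.2 this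
  refine ⟨U, ?_, fun x hx => ⟨?_, hUdeg x hx⟩⟩
  · have h1 : ∑ x ∈ U, ∑ y ∈ U, G.adjMatrix ℝ x y ≤ U.card * (K * N) := by
      calc ∑ x ∈ U, ∑ y ∈ U, G.adjMatrix ℝ x y ≤ ∑ x ∈ U, K * N :=
            sum_le_sum fun x hx => hrow2 x hx
        _ = _ := by rw [sum_const, nsmul_eq_mul]
    have h2 : c * N / 2 * ((Hᶜ).card : ℝ) ≤ c * N / 2 * n :=
      mul_le_mul_of_nonneg_left hcard (by positivity)
    have h3 : 0 ≤ c * N / 2 * (U.card : ℝ) := by positivity
    have h4 : c * (n * N) / 2 ≤ U.card * (K * N) := by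
      rw [hres] at hw
      nlinarith
    have h5 : c * n / 2 ≤ U.card * K := by
      have : N * (c * n / 2) ≤ N * (U.card * K) := by nlinarith
      exact le_of_mul_le_mul_left this hNpos
    rw [hK, ← mul_div_assoc, le_div_iff₀ hc] at h5
    nlinarith
  · have := hdeg x hx
    rw [hrow] at this
    refine le_trans (le_of_eq ?_) this
    ring

end Pool.TH815.GR
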